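import Pool.Agent.Helper99.MKV.GoalsA

/-!
# Packet MKV LPK: Lipschitz bound of the truncated kernels
-/

open Finset Filter Topology

namespace Pool.Agent.Helper5.MKV

open Pool.Agent.Helper99.MKV Pool.Agent.Helper99.EXC Pool.Agent.Helper99.ERW

theorem nm_nonneg' (x : Site 2) : 0 ≤ nm x := le_max_of_le_left (abs_nonneg _)

theorem lpk_step {a : ℝ} {φ : Site 2 → ℝ} {Φ : ℕ → Site 2 → ℝ} {κ C : ℝ} {b k1 : ℕ}
    (h : Scl a φ Φ κ C b k1) (x y : Site 2) : ∀ m k : ℕ, k1 ≤ k →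
    |Df (Φ k) x - Df (Φ k) y| ≤ 2 * C / 8 ^ k * nm (x - y) + 2 * C / 4 ^ (k + m) := by
  have hC : 0 ≤ C := le_trans zero_le_one h.cone
  have hn := nm_nonneg' (x - y)
  intro m
  induction m with
  | zero =>
    intro k hk
    have h1 := abs_sub (Df (Φ k) x) (Df (Φ k) y)
    have h2 := h.dphi1 k hk x
    have h3 := h.dphi1 k hk y
    have h4 : 0 ≤ 2 * C / 8 ^ k * nm (x - y) := by positivity
    have h5 : 2 * C / 4 ^ (k + 0) = C / 4 ^ k + C / 4 ^ k := by
      rw [Nat.add_zero]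
      ring
    rw [h5]
    linarith
  | succ m ih =>
    intro k hk
    have h1 := ih (k + 1) (by omega)
    have h2 := h.hL k hk x y
    have h3 : Df (Φ k) x - Df (Φ k) y =
        (Pool.Agent.Helper99.EXC.hk Φ k x - Pool.Agent.Helper99.EXC.hk Φ k y) +
          (Df (Φ (k + 1)) x - Df (Φ (k + 1)) y) := by
      unfold Pool.Agent.Helper99.EXC.hk
      ring
    rw [h3]
    refine le_trans (abs_add_le _ _) (le_trans (add_le_add h2 h1) ?_)
    have h4 : 2 * C / 8 ^ (k + 1) * nm (x - y) = (C / 8 ^ k * nm (x - y)) / 4 := by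
      rw [pow_succ]
      field_simp
      ring
    have h5 : 2 * C / 8 ^ k * nm (x - y) = 2 * (C / 8 ^ k * nm (x - y)) := by ring
    have h6 : 0 ≤ C / 8 ^ k * nm (x - y) := by positivity
    have h7 : k + 1 + m = k + (m + 1) := by omega
    rw [h4, h5, h7]
    linarith

theorem LPK : LPK_stmt := by
  intro a φ Φ κ C b k1 h k hk x y
  have h1 : Tendsto (fun m : ℕ => 2 * C / 8 ^ k * nm (x - y) + 2 * C / 4 ^ (k + m)) atTop
      (𝓝 (2 * C / 8 ^ k * nm (x - y) + 0)) := by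
    refine tendsto_const_nhds.add ?_
    have h2 : Tendsto (fun m : ℕ => (2 * C / 4 ^ k) * (1 / 4 : ℝ) ^ m) atTop (𝓝 ((2 * C / 4 ^ k) * 0)) :=
      (tendsto_pow_atTop_nhds_zero_of_lt_one (by norm_num) (by norm_num)).const_mul _
    rw [mul_zero] at h2
    refine h2.congr fun m => ?_
    rw [pow_add, one_div, inv_pow]
    field_simp
  rw [add_zero] at h1
  exact ge_of_tendsto' h1 fun m => lpk_step h x y m k hk

end Pool.Agent.Helper5.MKV
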